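import Pool.Agent.Q17.WR.Stm2

/-!
# Assembly of project WR
-/

set_option autoImplicit false

open scoped Classical

noncomputable section

namespace Pool.Agent.Q17.WR

open Pool.Agent.Y63.KR Pool.Agent.Q18.KRX
open Pool.Agent.Y63.AWC (IsIrreducibleCharacter numDefectZero)

/-- the polynomial of the action of `A` on `Ω` at `x`, multiplied by `|A|` -/
def WP (p : ℕ) (A Ω : Type) [Group A] [MulAction A Ω] (x : ℤ) : ℤ :=
  ∑ᶠ τ : {τ : Set (Subgroup A) // IsPChain p τ}, (-1 : ℤ) ^ τ.1.ncard *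
    ∑ᶠ α : Z2 →* chainStabilizer τ.1,
      x ^ norb Ω (sSup τ.1 ⊔ α.range.map (chainStabilizer τ.1).subtype)

instance (G A Ω : Type) [Group G] [Group A] [MulAction A Ω] [Finite G] [Finite A] [Finite Ω] :
    Finite (Wr G A Ω) := Finite.of_equiv _ SemidirectProduct.equivProd.symm

lemma card_wr (G A Ω : Type) [Group G] [Group A] [MulAction A Ω] [Finite G] [Finite A] [Finite Ω] :
    Nat.card (Wr G A Ω) = Nat.card G ^ Nat.card Ω * Nat.card A := by
  rw [Nat.card_congr SemidirectProduct.equivProd, Nat.card_prod, Nat.card_fun]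

/-- conjugating the supremum of a chain -/
lemma conj_sSup {A : Type} [Group A] (τ : Set (Subgroup A)) {b : A} (hb : b ∈ chainStabilizer τ) :
    conjSub b (sSup τ) = sSup τ := by
  have h1 : ∀ g : A, (∀ P ∈ τ, conjSub g P = P) → conjSub g (sSup τ) ≤ sSup τ := by
    intro g hg
    have h2 : sSup τ ≤ conjSub g⁻¹ (sSup τ) := by
      refine sSup_le fun P hP => ?_
      have h3 : conjSub g⁻¹ P = P := by
        conv_lhs => rw [← hg P hP]
        exact conjSub_inv_conjSub g P
      rw [← h3]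
      exact conjSub_le (le_sSup hP)
    have h4 := conjSub_le (g := g) h2
    rwa [conjSub_conjSub_inv] at h4
  have h5 : ∀ P ∈ τ, conjSub b P = P := fun P hP => by
    rw [mem_chainStabilizer] at hb
    exact hb P hP
  have h6 : ∀ P ∈ τ, conjSub b⁻¹ P = P := fun P hP => by
    conv_lhs => rw [← h5 P hP]
    exact conjSub_inv_conjSub b P
  refine le_antisymm (h1 b h5) ?_
  have h7 := conjSub_le (g := b) (h1 b⁻¹ h6)
  rwa [conjSub_conjSub_inv] at h7

/-- the action of the normaliser on the set of the orbits -/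
abbrev qact {A Ω : Type} [Group A] [MulAction A Ω] (P B : Subgroup A)
    (hB : ∀ b ∈ B, conjSub b P = P) : MulAction B (MulAction.orbitRel.Quotient P Ω) where
  smul b := Quotient.map (fun ω => (b : A) • ω) (by
    rintro ω ω' ⟨s, hs⟩
    refine ⟨⟨(b : A) * s * (b : A)⁻¹, ?_⟩, ?_⟩
    · have h1 := conj_mem_conjSub (g := (b : A)) s.2
      rwa [hB _ b.2] at h1
    · change ((b : A) * s * (b : A)⁻¹) • ((b : A) • ω') = (b : A) • ω
      rw [← hs]
      change _ = (b : A) • ((s : A) • ω')
      rw [smul_smul, smul_smul, inv_mul_cancel_right])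
  one_smul := by
    intro q
    induction q using Quotient.inductionOn with
    | h ω => exact congrArg _ (one_smul A ω)
  mul_smul := by
    intro a b q
    induction q using Quotient.inductionOn with
    | h ω => exact congrArg _ (mul_smul (a : A) (b : A) ω)

section

variable (p : ℕ) [Fact p.Prime] (G A Ω : Type) [Group G] [Group A] [MulAction A Ω]
  [Finite G] [Finite A] [Finite Ω]

/-- the Knörr-Robinson sum of the wreath product -/
theorem kr_wr (hL : S_LNK) (hR : S_RED) (hT : S_TRF) (hC : S_COC) :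
    (Nat.card A : ℤ) * krSum p (Wr G A Ω) = WP p A Ω (krSum p G) := by
  have h0 : (0 : ℤ) < (Nat.card G : ℤ) ^ Nat.card Ω := by
    have : 0 < Nat.card G := Nat.card_pos
    positivity
  refine mul_left_cancel₀ h0.ne' ?_
  have h1 := (hL p (Wr G A Ω)).2.1
  rw [card_wr, hR p G A Ω] at h1
  push_cast at h1
  rw [← mul_assoc, h1]
  unfold WP
  have hf : Finite {τ : Set (Subgroup A) // IsPChain p τ} := Subtype.finite
  rw [mul_finsum (α := {τ : Set (Subgroup A) // IsPChain p τ})]
  refine finsum_congr fun τ => ?_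
  rw [mul_left_comm ((Nat.card G : ℤ) ^ Nat.card Ω)]
  congr 1
  have hB : ∀ b ∈ chainStabilizer τ.1, conjSub b (sSup τ.1) = sSup τ.1 :=
    fun b hb => conj_sSup τ.1 hb
  let := qact (Ω := Ω) (sSup τ.1) (chainStabilizer τ.1) hB
  have : Finite (MulAction.orbitRel.Quotient (sSup τ.1 : Subgroup A) Ω) := Quotient.finite _
  obtain ⟨h2, h3, h4⟩ := hT p G A Ω (sSup τ.1) (chainStabilizer τ.1) hB
    (MulAction.orbitRel.Quotient (sSup τ.1 : Subgroup A) Ω) Quotient.mk'' Quotient.mk''_surjective
    (fun b ω => rfl) (fun ω ω' => by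
      rw [Quotient.eq'']
      constructor
      · rintro ⟨s, hs⟩
        refine ⟨(s : A)⁻¹, inv_mem s.2, ?_⟩
        rw [← hs]
        exact inv_smul_smul (s : A) ω'
      · rintro ⟨s, hs, h⟩
        refine ⟨⟨s⁻¹, inv_mem hs⟩, ?_⟩
        rw [← h]
        exact inv_smul_smul s ω)
  have hf2 : Finite (Z2 →* chainStabilizer τ.1) := (hL p (chainStabilizer τ.1)).1
  rw [h2]
  have h5 : ∀ α : Z2 →* chainStabilizer τ.1,
      ∑ᶠ c : Coc G ((MulAction.toPermHom (chainStabilizer τ.1)
        (MulAction.orbitRel.Quotient (sSup τ.1 : Subgroup A) Ω)).comp α), EF p c =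
      (Nat.card G : ℤ) ^ Nat.card (MulAction.orbitRel.Quotient (sSup τ.1 : Subgroup A) Ω) *
        krSum p G ^ norb Ω (sSup τ.1 ⊔ α.range.map (chainStabilizer τ.1).subtype) := by
    intro α
    rw [hC p G _ _, h4 α]
  rw [finsum_congr h5, mul_finsum (α := Z2 →* chainStabilizer τ.1),
    mul_finsum (α := Z2 →* chainStabilizer τ.1)]
  refine finsum_congr fun α => ?_
  rw [← mul_assoc]
  congr 1
  exact_mod_cast h3

/-- the stabilisers of the functions with values in a set of `krSum p G` elements -/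
theorem kr_stab (hM : S_CMB) (X : Type) [Finite X] :
    WP p A Ω (Nat.card X) =
      ∑ᶠ f : Ω → X, (Nat.card (Sf (A := A) f) : ℤ) * krSum p (Sf (A := A) f) :=
  (hM p A Ω X).symm

/-- the error term -/
theorem errZ_wr (hL : S_LNK) (hR : S_RED) (hT : S_TRF) (hC : S_COC) (hM : S_CMB) (hZ : S_ZED)
    [Finite (DZt p G)] (hX : Nat.card (DZt p G) = numDefectZero p G) (hG : errZ p G = 0) :
    (Nat.card A : ℤ) * errZ p (Wr G A Ω) =
      ∑ᶠ f : Ω → DZt p G, (Nat.card (Sf (A := A) f) : ℤ) * errZ p (Sf (A := A) f) := by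
  have h1 : krSum p G = (Nat.card (DZt p G) : ℤ) := by
    unfold errZ at hG
    rw [hX]
    linarith
  have h2 := kr_wr p G A Ω hL hR hT hC
  rw [h1, kr_stab p A Ω hM] at h2
  unfold errZ
  rw [mul_sub, hZ p G A Ω, h2, ← finsum_sub_distrib (Set.toFinite _) (Set.toFinite _)]
  exact finsum_congr fun f => by ring

end

end Pool.Agent.Q17.WR
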