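import Pool.Agent.Q17.WR.Fin
import Pool.Agent.Q17.AM.Nt
import Pool.Agent.Q17.AM.Stm2
import Pool.Agent.Q26.WR.RED
import Pool.Agent.Q26.WR.TRF
import Pool.Agent.Q16.WR.COC
import Pool.Agent.Q16.WR.ZRP
import Pool.Agent.Q65.WR.CMB
import Pool.Agent.Q65.WR.LNK
import Pool.Agent.Q65.WR.LAT
import Pool.Agent.Q92.WR.TOPX
import Pool.Agent.Q92.WR.CNJ
import Pool.Agent.Q150.WR.ZED
import Pool.Agent.Q150.WR.ZPR
import Pool.Agent.Q177.WR.PRD
import Pool.Agent.Q223.WR.ZEX

/-!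
# Consequences
-/

set_option autoImplicit false

open scoped Classical

noncomputable section

namespace Pool.Agent.Q17.WR

open Pool.Agent.Y63.KR Pool.Agent.Q18.KRX
open Pool.Agent.Y63.AWC (IsIrreducibleCharacter numDefectZero)

theorem lnk : S_LNK := Pool.Agent.Q65.WR.t_LNK
theorem red : S_RED := Pool.Agent.Q26.WR.t_RED Pool.Agent.Q92.WR.t_TOPX Pool.Agent.Q92.WR.t_CNJ
theorem trf : S_TRF := Pool.Agent.Q26.WR.t_TRF
theorem coc : S_COC := Pool.Agent.Q16.WR.t_COC lnk Pool.Agent.Q65.WR.t_LAT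
  Pool.Agent.Q177.WR.t_PRD
theorem cmb : S_CMB := Pool.Agent.Q65.WR.t_CMB lnk
theorem zrp : S_ZRP := Pool.Agent.Q16.WR.t_ZRP
theorem zpr : S_ZPR := Pool.Agent.Q150.WR.t_ZPR zrp
theorem zex : S_ZEX := Pool.Agent.Q223.WR.t_ZEX zrp zpr
theorem zed : S_ZED := Pool.Agent.Q150.WR.t_ZED zpr zex

section

variable (p : ℕ) [Fact p.Prime]

lemma kr_chi (H : Type) [Group H] [Finite H] :
    (krSum p H : ℚ) = (Nat.card (ConjClasses H) : ℚ) - chi2 p H := by
  have h := err_eq p H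
  unfold err errZ at h
  push_cast at h
  linarith

lemma krc_iff_errZ (H : Type) [Group H] [Finite H] : KRC p H ↔ errZ p H = 0 := by
  rw [krc_iff_err, err_eq]
  norm_cast

variable (G A Ω : Type) [Group G] [Group A] [MulAction A Ω] [Finite G] [Finite A] [Finite Ω]

instance dz_fin : Finite (DZt p G) := by
  have : Fintype G := Fintype.ofFinite G
  exact Set.Finite.to_subtype (Set.Finite.subset
    (Pool.Agent.Helper884.IC.irr_finite (G := G)) fun χ h => h.1)

theorem wr1 : (Nat.card A : ℤ) * krSum p (Wr G A Ω) = WP p A Ω (krSum p G) :=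
  kr_wr p G A Ω lnk red trf coc

theorem wr2 (h : KRC p G) : (Nat.card A : ℤ) * errZ p (Wr G A Ω) =
    ∑ᶠ f : Ω → DZt p G, (Nat.card (Sf (A := A) f) : ℤ) * errZ p (Sf (A := A) f) :=
  errZ_wr p G A Ω lnk red trf coc cmb zed rfl ((krc_iff_errZ p G).mp h)

theorem wr3 (h : KRC p G) (h' : ∀ f : Ω → DZt p G, KRC p (Sf (A := A) f)) :
    KRC p (Wr G A Ω) := by
  rw [krc_iff_errZ]
  have h0 : (Nat.card A : ℤ) ≠ 0 := by
    have : 0 < Nat.card A := Nat.card_pos
    omega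
  refine (mul_eq_zero.mp ((wr2 p G A Ω h).trans ?_)).resolve_left h0
  refine finsum_eq_zero_of_forall_eq_zero fun f => ?_
  rw [(krc_iff_errZ p _).mp (h' f), mul_zero]

theorem wr4 (h : KRC p G) (hz : numDefectZero p G = 0) (hΩ : Nonempty Ω) :
    KRC p (Wr G A Ω) := by
  refine wr3 p G A Ω h fun f => ?_
  exfalso
  have h1 : Nat.card (DZt p G) = 0 := hz
  have h2 : IsEmpty (DZt p G) := Finite.card_eq_zero_iff.mp h1
  exact h2.false (f hΩ.some)

theorem wr5 (h : KRC p G) (hz : numDefectZero p G = 1) :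
    KRC p (Wr G A Ω) ↔ KRC p A := by
  have h1 : Nat.card (DZt p G) = 1 := hz
  obtain ⟨hs, ⟨χ₀⟩⟩ := Nat.card_eq_one_iff_unique.mp h1
  have h2 : Subsingleton (Ω → DZt p G) := inferInstance
  have h3 := wr2 p G A Ω h
  have h4 : Sf (A := A) (fun _ : Ω => χ₀) = ⊤ := by
    rw [eq_top_iff]
    exact fun a _ ω => rfl
  have h5 : ∑ᶠ f : Ω → DZt p G, (Nat.card (Sf (A := A) f) : ℤ) * errZ p (Sf (A := A) f) =
      (Nat.card A : ℤ) * errZ p A := by
    rw [finsum_eq_single _ (fun _ => χ₀) (fun f hf => absurd (Subsingleton.elim f _) hf), h4,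
      Subgroup.card_top]
    congr 1
    unfold errZ
    rw [show numDefectZero p (⊤ : Subgroup A) = numDefectZero p A from
      Pool.Agent.Y63.AWC.numDefectZero_congr Subgroup.topEquiv,
      show krSum p (⊤ : Subgroup A) = krSum p A from
        krSum_iso (p := p) _ _ ⟨Subgroup.topEquiv⟩]
  rw [h5] at h3
  have h0 : (Nat.card A : ℤ) ≠ 0 := by
    have : 0 < Nat.card A := Nat.card_pos
    omega
  rw [krc_iff_errZ, krc_iff_errZ, mul_left_cancel₀ h0 h3]

end

/-- divisibility by `r` is enough -/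
theorem wr6 (hK : Pool.Agent.Q17.AM.S_KRY) (p r : ℕ) [Fact p.Prime] [Fact r.Prime]
    (X : ∀ (H : Type) [Group H], Prop)
    (hX : ∀ (H : Type) [Group H] [Finite H], X H → X (Pool.Agent.Q17.AM.Wc H r))
    (h : ∀ (H : Type) [Group H] [Finite H], X H → (r : ℤ) ∣ errZ p H) :
    ∀ (H : Type) [Group H] [Finite H], X H → KRC p H := by
  have key : ∀ j, 1 ≤ j → ∀ (H : Type) [Group H] [Finite H], X H → (r : ℤ) ^ j ∣ errZ p H := by
    intro j hj
    induction j, hj using Nat.le_induction with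
    | base => exact fun H _ _ hH => by rw [pow_one]; exact h H hH
    | succ j hj ih =>
      intro H _ _ hH
      obtain ⟨h1, h2⟩ := hK p r H
      refine Pool.Agent.Q17.AM.step_int hj ?_ h2 h1 (ih H hH) (ih _ (hX H hH))
      split_ifs with hpr
      · simp
      · exact ⟨r, by ring⟩
  intro H _ _ hH
  rw [krc_iff_errZ]
  exact Pool.Agent.Q17.AM.zero_of_dvd (Nat.Prime.two_le Fact.out) fun j hj => key j hj H hH

theorem wr7 (hK : Pool.Agent.Q17.AM.S_KRY) (p m : ℕ) [Fact p.Prime] (hm : 2 ≤ m)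
    (h : ∀ (H : Type) [Group H] [Finite H], (m : ℤ) ∣ errZ p H) (H : Type) [Group H] [Finite H] :
    KRC p H := by
  have : Fact m.minFac.Prime := ⟨Nat.minFac_prime (by omega)⟩
  refine wr6 hK p m.minFac (fun _ _ => True) (fun _ _ _ _ => trivial) (fun H _ _ _ => ?_) H trivial
  exact (Int.natCast_dvd_natCast.mpr m.minFac_dvd).trans (h H)

end Pool.Agent.Q17.WR
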