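import Pool.Agent.Q17.WR.Fin2
import Pool.Agent.Q92.AM.KRY

/-!
# The last steps
-/

set_option autoImplicit false

open scoped Classical

noncomputable section

namespace Pool.Agent.Q17.WR

open Pool.Agent.Y63.KR Pool.Agent.Q18.KRX
open Pool.Agent.Y63.AWC (IsIrreducibleCharacter numDefectZero)

theorem kry : Pool.Agent.Q17.AM.S_KRY := Pool.Agent.Q92.AM.t_KRY lnk red trf coc zed

theorem kry' (p r : ℕ) [Fact p.Prime] [Fact r.Prime] (G : Type) [Group G] [Finite G] :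
    (r : ℚ) * ((Nat.card (ConjClasses (Pool.Agent.Q17.AM.Wc G r)) : ℚ) -
        chi2 p (Pool.Agent.Q17.AM.Wc G r)) =
      ((Nat.card (ConjClasses G) : ℚ) - chi2 p G) ^ r +
        (if p = r then -1 else (r : ℚ) ^ 2 - 1) * ((Nat.card (ConjClasses G) : ℚ) - chi2 p G) ∧
    (r : ℚ) * (numDefectZero p (Pool.Agent.Q17.AM.Wc G r) : ℚ) = (numDefectZero p G : ℚ) ^ r +
      (if p = r then -1 else (r : ℚ) ^ 2 - 1) * (numDefectZero p G : ℚ) := by
  obtain ⟨h1, h2⟩ := kry p r G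
  constructor
  · rw [← kr_chi p, ← kr_chi p]
    have h3 : (((r : ℤ) * krSum p (Pool.Agent.Q17.AM.Wc G r) : ℤ) : ℚ) =
        ((krSum p G ^ r + (if p = r then -1 else (r : ℤ) ^ 2 - 1) * krSum p G : ℤ) : ℚ) := by
      rw [h1]
    push_cast at h3
    rw [h3]
  · have h3 : (((r : ℤ) * (numDefectZero p (Pool.Agent.Q17.AM.Wc G r) : ℤ) : ℤ) : ℚ) =
        (((numDefectZero p G : ℤ) ^ r + (if p = r then -1 else (r : ℤ) ^ 2 - 1) *
          (numDefectZero p G : ℤ) : ℤ) : ℚ) := by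
      rw [h2]
    push_cast at h3
    rw [h3]

end Pool.Agent.Q17.WR
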