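import Pool.Agent.Q18.KRX.Fin
import Pool.Agent.Q18.KRX.Poset

/-!
# Statements of the parts of project WR (wreath products and the Knörr-Robinson conjecture)

Library: `W`, `IsPChain`, `conjSub`, `chainStabilizer`, `toggle`, `sum_eq_zero` in `Y63.KR.Basic`,
`Y63.KR.Pairs`; `krSum`, `card_mul_krSum` in `Q18.KRX.Ex`; `E`, `E_erase`, `E_cone`, `E_retract`,
`E_minimal`, `E_image` in `Q18.KRX.Poset`; the relation between `W` and `E` in `Q18.KRX.Top`.
-/

set_option autoImplicit false

open scoped Classical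

noncomputable section

namespace Pool.Agent.Q17.WR

open Pool.Agent.Y63.KR Pool.Agent.Q18.KRX
open Pool.Agent.Y63.AWC (IsIrreducibleCharacter numDefectZero)

/-- the free abelian group of rank two, written multiplicatively -/
abbrev Z2 : Type := Multiplicative (ℤ × ℤ)

/-- `σ` is normalised by all elements of `K` -/
def Fx {Γ : Type} [Group Γ] (K : Set Γ) (σ : Set (Subgroup Γ)) : Prop :=
  ∀ P ∈ σ, ∀ x ∈ K, conjSub x P = P

/-- the alternating sum over the chains (the empty one included) of nontrivial `p`-subgroups of `C`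
normalised by all elements of `K`; `WC p ⊤ K = W p K` -/
def WC (p : ℕ) {Γ : Type} [Group Γ] (C : Subgroup Γ) (K : Set Γ) : ℤ :=
  ∑ᶠ σ : {σ : Set (Subgroup Γ) // IsPChain p σ},
    (-1 : ℤ) ^ σ.1.ncard * (if (∀ P ∈ σ.1, P ≤ C) ∧ Fx K σ.1 then 1 else 0)

/-- JOB LNK. Homomorphisms from `Z2` and commuting pairs: `ψ` corresponds to the images of the two
generators; then `W p (range ψ)` is `W p` of the pair, as a subgroup is normalised by the closure of a
set if it is normalised by the members; use `card_mul_krSum`. -/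
def S_LNK : Prop := ∀ (p : ℕ) [Fact p.Prime] (Γ : Type) [Group Γ] [Finite Γ],
  Finite (Z2 →* Γ) ∧ (Nat.card Γ : ℤ) * krSum p Γ = ∑ᶠ ψ : Z2 →* Γ, W p (ψ.range : Set Γ) ∧
  ∃ e : (Z2 →* Γ) ≃ {q : Γ × Γ // q.1 * q.2 = q.2 * q.1},
    ∀ ψ, ψ.range = Subgroup.closure {(e ψ).1.1, (e ψ).1.2}

/-- JOB TOPX. Normal subgroups and alternating sums. Proof. Let `X` be the finite set of the
nontrivial `p`-subgroups of `Γ` normalised by `K`, `Y` the members `P` of `X` with `P ⊓ M = ⊥`
(closed under passage to smaller members of `X`). A chain in `X` is a chain `σ` in `Y` followed by a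
chain in `Z σ = {R ∈ X | R ⊓ M ≠ ⊥, Q < R for all Q ∈ σ}`, so `W p K = ∑ σ, (-1) ^ |σ| E (Z σ)`. Let
`P = sSup σ` (`⊥` or the greatest member of `σ`; it is a `p`-group, normalised by `K`, and
`P ⊓ M = ⊥`). (a) `r R = (R ⊓ M) ⊔ P` is a deflationary retraction of `Z σ` (`P ≤ R` normalises
`R ⊓ M`; use `E_retract`). (b) the `R` with `r R = R` correspond (`E_image`) to the nontrivial
`p`-subgroups `L ≤ M` normalised by `P` and by `K`: `L = R ⊓ M`, `R = L ⊔ P` (modular law:
`(L ⊔ P) ⊓ M = L ⊔ (P ⊓ M) = L`). (c) `L ↦ L ⊓ C(P)` is a deflationary retraction of the set of these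
`L` (the `p`-group `P` acts on the nontrivial `p`-group `L` by conjugation, so it has a nontrivial
fixed point), its fixed points are the nontrivial `p`-subgroups of `M ⊓ C(P)` normalised by `K`
(they are centralised by `P`). So `E (Z σ) = WC p (M ⊓ C(P)) K`. -/
def S_TOPX : Prop := ∀ (p : ℕ) [Fact p.Prime] (Γ : Type) [Group Γ] [Finite Γ] (M : Subgroup Γ)
  [M.Normal] (K : Set Γ), W p K =
    ∑ᶠ σ : {σ : Set (Subgroup Γ) // IsPChain p σ}, (-1 : ℤ) ^ σ.1.ncard *
      (if (∀ P ∈ σ.1, P ⊓ M = ⊥) ∧ Fx K σ.1 then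
        WC p (M ⊓ Subgroup.centralizer ((sSup σ.1 : Subgroup Γ) : Set Γ)) K else 0)

/-- the wreath product of `G` with `A` acting on `Ω` -/
abbrev Wr (G A Ω : Type) [Group G] [Group A] [MulAction A Ω] : Type :=
  (Ω → G) ⋊[mulAutArrow (G := A) (A := Ω) (M := G)] A

section

variable (G A Ω : Type) [Group G] [Group A] [MulAction A Ω]

/-- the base group -/
def Bs : Subgroup (Wr G A Ω) := (SemidirectProduct.rightHom : Wr G A Ω →* A).ker

instance : (Bs G A Ω).Normal := MonoidHom.normal_ker _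

variable {A}

/-- a subgroup of the complement -/
def Jn (P : Subgroup A) : Subgroup (Wr G A Ω) := P.map (SemidirectProduct.inr : A →* Wr G A Ω)

/-- the centraliser of `P ≤ A` in the base group: the functions `Ω → G` constant on the orbits of
`P` -/
def CM (P : Subgroup A) : Subgroup (Wr G A Ω) :=
  Bs G A Ω ⊓ Subgroup.centralizer (Jn G Ω P : Set (Wr G A Ω))

/-- the elements `(f, b)` with `b ∈ B` and `f` constant on the orbits of `P` -/
def SS (P B : Subgroup A) : Set (Wr G A Ω) :=
  {x | x.right ∈ B ∧ ∀ s ∈ P, ∀ ω : Ω, x.left (s • ω) = x.left ω}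

end

/-- JOB CNJ. `p`-subgroups of the wreath product which meet the base group trivially. Proof. For
`ω ∈ Ω` let `P_ω = {g ∈ P | g.right • ω = ω}`; `ρ_ω : P_ω → G`, `g ↦ g.left ω` is a homomorphism
(`(g h).left ω = g.left ω * h.left (g.right⁻¹ • ω)`). Case 1: all `ρ_ω` are trivial. Choose
representatives `r(ω)` of the orbits of `P` on `Ω` and `g ∈ P` with `g.right • r(ω) = ω`, and put
`m ω = g.left ω`; this does not depend on the choice of `g` (another one is `g h`, `h ∈ P_{r(ω)}`, and
`(g h).left ω = g.left ω * h.left (r(ω))`). For `h ∈ P` the element `h g` is a choice for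
`h.right • ω`, so `m (h.right • ω) = h.left (h.right • ω) * m ω`, that is
`h = inl m * inr h.right * (inl m)⁻¹`. Case 2: `ρ_ω ≠ 1` for some `ω = ω₀`. Let `R` be the image of
`ρ_ω₀`, a nontrivial `p`-group, `z ≠ 1` in its centre, `m_z (g.right • ω₀) = g.left (g.right • ω₀) * z *
(g.left (g.right • ω₀))⁻¹` for `g ∈ P` and `m_z = 1` off the orbit of `ω₀` (well defined, as `z` is
central in `R`). `inl m_z` commutes with `P`, and with all `c` in `C = Bs ⊓ C(P)`: from `c g = g c`
(`g ∈ P`) we get `c.left (g.right • ω₀) = g.left (g.right • ω₀) * c.left ω₀ * (g.left (g.right • ω₀))⁻¹`,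
and for `g ∈ P_ω₀` that `c.left ω₀` commutes with `R ∋ z`. So the elements of `p`-power order of the
centre of `C` form a nontrivial `p`-subgroup `Z`; it is normalised by everything which normalises
`P`, since this normalises `C`. -/
def S_CNJ : Prop := ∀ (p : ℕ) [Fact p.Prime] (G A Ω : Type) [Group G] [Group A] [MulAction A Ω]
  [Finite G] [Finite A] [Finite Ω] (P : Subgroup (Wr G A Ω)), IsPGroup p P → P ⊓ Bs G A Ω = ⊥ →
  (∃ m ∈ Bs G A Ω, P = conjSub m (Jn G Ω (P.map SemidirectProduct.rightHom))) ∨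
  ∃ Z : Subgroup (Wr G A Ω), IsPGroup p Z ∧ Z ≠ ⊥ ∧
    Z ≤ Bs G A Ω ⊓ Subgroup.centralizer (P : Set (Wr G A Ω)) ∧
    (∀ c ∈ Bs G A Ω ⊓ Subgroup.centralizer (P : Set (Wr G A Ω)), ∀ z ∈ Z, c * z = z * c) ∧
    ∀ x : Wr G A Ω, conjSub x P = P → conjSub x Z = Z

/-- JOB RED. Reduction to chains of subgroups of `A` (use `S_TOPX`, `S_CNJ`). Proof. Sum `S_TOPX` (with
`M = Bs`) over `ψ`. A term `(ψ, σ)` with `P = sSup σ` in the second case of `S_CNJ` vanishes: `Z` is
normalised by the range of `ψ` (which normalises `P`), and `L ↦ L ⊔ Z` is an inflationary map of the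
poset of the nontrivial `p`-subgroups of `M ⊓ C(P)` normalised by `range ψ` (toggle with `Z` as in
`Y63.KR.Basic.sum_eq_zero`, or `E_retract`, `E_cone`). In the first case all members of `σ` are
conjugate by the same `m` to their images in `A` (`h = inl m * inr h.right * (inl m)⁻¹` for `h ∈ P`), so
`σ = conjSub m '' (Jn '' τ)`, where `τ` is the chain of the images of the members of `σ` in `A`. For
given `τ` with `Q = sSup τ` the chains `conjSub m '' (Jn '' τ)`, `m ∈ Bs`, are in bijection with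
`Bs / CM Q` (if `m` normalises the members of `Jn '' τ` it centralises them, as `Bs` is normal and
meets `Jn Q` trivially), and conjugation by `m` shows that all give the same sum over `ψ`. Finally
`ψ` fixes the chain `Jn '' τ` if and only if its range is in `SS Q (chainStabilizer τ)`:
`x (inr q) x⁻¹ = inl x.left * inr q' * (inl x.left)⁻¹`, `q' = x.right q x.right⁻¹`. -/
def S_RED : Prop := ∀ (p : ℕ) [Fact p.Prime] (G A Ω : Type) [Group G] [Group A] [MulAction A Ω]
  [Finite G] [Finite A] [Finite Ω],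
  ∑ᶠ ψ : Z2 →* Wr G A Ω, W p (ψ.range : Set (Wr G A Ω)) =
    ∑ᶠ τ : {τ : Set (Subgroup A) // IsPChain p τ}, (-1 : ℤ) ^ τ.1.ncard *
      (((CM G Ω (sSup τ.1)).relIndex (Bs G A Ω) : ℤ) *
      ∑ᶠ ψ : {ψ : Z2 →* Wr G A Ω // (ψ.range : Set (Wr G A Ω)) ⊆
          SS G Ω (sSup τ.1) (chainStabilizer τ.1)},
        WC p (CM G Ω (sSup τ.1)) (ψ.1.range : Set (Wr G A Ω)))

/-- `p`-subgroups, the trivial one included -/
abbrev PSub (p : ℕ) (G : Type) [Group G] : Type := {P : Subgroup G // IsPGroup p P}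

/-- cocycles of `Z2` with values in `Q → G`, for the action `a` of `Z2` on `Q` -/
abbrev Coc (G : Type) [Group G] {Q : Type} (a : Z2 →* Equiv.Perm Q) : Type :=
  {c : Z2 → Q → G // ∀ l k ω, c (l * k) ω = c l ω * c k (a l⁻¹ ω)}

/-- the set of the families of `p`-subgroups of `G`, not all trivial, invariant under the cocycle
`c` -/
def Fm (p : ℕ) {G : Type} [Group G] {Q : Type} {a : Z2 →* Equiv.Perm Q} (c : Coc G a) :
    Set (Q → Subgroup G) :=
  {F | (∀ ω, IsPGroup p (F ω)) ∧ (∃ ω, F ω ≠ ⊥) ∧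
    ∀ l ω, F (a l ω) = conjSub (c.1 l (a l ω)) (F ω)}

/-- the alternating sum over the chains of invariant families -/
def EF (p : ℕ) {G : Type} [Group G] [Finite G] {Q : Type} [Finite Q] {a : Z2 →* Equiv.Perm Q}
    (c : Coc G a) : ℤ := E (Set.toFinite (Fm p c)).toFinset

/-- the number of orbits of the subgroup `S` of `A` on `Ω` -/
def norb {A : Type} [Group A] (Ω : Type) [MulAction A Ω] (S : Subgroup A) : ℕ :=
  Nat.card (MulAction.orbitRel.Quotient S Ω)

/-- JOB TRF. Passage to the set `Q` of the orbits of `P`. Proof. `SS P B` is a subgroup, isomorphic to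
`(Q → G) ⋊ B` by `x ↦ (x.left descended to Q, x.right)`; so a homomorphism `ψ` with range in it
corresponds to `α = right ∘ ψ : Z2 → B` and the cocycle `c l (π ω) = (ψ l).left ω` for the action of
`Z2` on `Q` through `α`. `CM P` is the set of the `inl f` with `f` constant on the orbits of `P`
(isomorphic to `Q → G`). Let `L` be a `p`-subgroup of it normalised by `range ψ` and `L_ω` the image
of `L` under `f ↦ f ω`; then `L ↦ {f | f ω ∈ L_ω for all ω}` is an inflationary retraction on the
poset of these `L ≠ ⊥` (a `p`-group, as it is contained in a finite product of `p`-groups), and its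
fixed points correspond to the families in `Fm p c`. (Inflationary: `E` is the same for the dual
order, or repeat `E_retract`.) The last two parts: `CM P ≅ (Q → G)` and `Bs ≅ (Ω → G)`; the orbits of
`Z2` on `Q` are those of `P ⊔ range α` on `Ω`, as `B` normalises `P`. -/
def S_TRF : Prop := ∀ (p : ℕ) [Fact p.Prime] (G A Ω : Type) [Group G] [Group A] [MulAction A Ω]
  [Finite G] [Finite A] [Finite Ω] (P B : Subgroup A), (∀ b ∈ B, conjSub b P = P) →
  ∀ (Q : Type) [Finite Q] [MulAction B Q] (π : Ω → Q), Function.Surjective π →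
  (∀ (b : B) ω, π ((b : A) • ω) = b • π ω) → (∀ ω ω', π ω = π ω' ↔ ∃ s ∈ P, s • ω = ω') →
  (∑ᶠ ψ : {ψ : Z2 →* Wr G A Ω // (ψ.range : Set (Wr G A Ω)) ⊆ SS G Ω P B},
      WC p (CM G Ω P) (ψ.1.range : Set (Wr G A Ω)) =
    ∑ᶠ α : Z2 →* B, ∑ᶠ c : Coc G ((MulAction.toPermHom B Q).comp α), EF p c) ∧
  (CM G Ω P).relIndex (Bs G A Ω) * Nat.card G ^ Nat.card Q = Nat.card G ^ Nat.card Ω ∧
  ∀ α : Z2 →* B, Nat.card (MulAction.orbitRel.Quotient
    (((MulAction.toPermHom B Q).comp α).range : Subgroup (Equiv.Perm Q)) Q) =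
      norb Ω (P ⊔ α.range.map B.subtype)

/-- JOB LAT. A subgroup of finite index in `ℤ × ℤ` is isomorphic to `ℤ × ℤ`. -/
def S_LAT : Prop := ∀ S : Subgroup Z2, S.FiniteIndex → Nonempty (S ≃* Z2)

/-- JOB PRD. Alternating sums of products. `X i` is a finite set containing the least element. Proof.
It suffices to treat two factors (induction; `E_image` for the identification). Put
`E₀ X = E (X.erase ⊥)`. For `X ∋ ⊥`: `E₀ X = ∑_{x ∈ X} μ(⊥, x)`; or by induction on `|X| + |Y|`: let
`x ∈ X` be maximal, `x ≠ ⊥`, `X' = X.erase x`; then by `E_erase` `E₀ X = E₀ X' - E (link)`, and the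
pairs `(x, y)` are removed from `X × Y` one after the other (in order of decreasing `y`), with link
`{(a, b) < (x, y)}` or above: `(x, b)`, `b > y`, are already removed. Any proof is fine. -/
def S_PRD : Prop := ∀ (I : Type) [Fintype I] (α : I → Type) [∀ i, PartialOrder (α i)]
  [∀ i, OrderBot (α i)] (X : ∀ i, Finset (α i)), (∀ i, ⊥ ∈ X i) →
    E ((Fintype.piFinset X).erase ⊥) = ∏ i, E ((X i).erase ⊥)

/-- JOB COC. The sum over the cocycles. Proof. Choose representatives `r o` of the orbits `o` of `Z2`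
on `Q` and `t ω ∈ Z2` with `a (t ω) (r o) = ω` (`o` the orbit of `ω`), `t (r o) = 1`; `S o` the
stabiliser of `r o`, isomorphic to `Z2` by `S_LAT`. A cocycle `c` is determined by `u ω = c (t ω) ω`
(`u (r o) = 1`) and by the homomorphisms `φ o : S o → G`, `φ o l = c l (r o)`:
`c l ω = u ω * φ o ((t ω)⁻¹ * l * t (a l⁻¹ ω)) * (u (a l⁻¹ ω))⁻¹`, and every pair `(u, φ)` occurs. The
members `F` of `Fm p c` are determined by the `F (r o)`, `p`-subgroups normalised by `range (φ o)`
(`F ω = conjSub (u ω) (F (r o))`), so by `S_PRD` and `E_image` `EF p c = ∏ o, W p (range (φ o))`. Sum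
over `φ o : S o ≅ Z2 → G` with `S_LNK`: `|G| * krSum p G`; the number of `u` is
`|G| ^ (|Q| - number of orbits)`. -/
def S_COC : Prop := ∀ (p : ℕ) [Fact p.Prime] (G Q : Type) [Group G] [Finite G] [Finite Q]
  (a : Z2 →* Equiv.Perm Q), ∑ᶠ c : Coc G a, EF p c =
    (Nat.card G : ℤ) ^ Nat.card Q *
      krSum p G ^ Nat.card (MulAction.orbitRel.Quotient (a.range : Subgroup (Equiv.Perm Q)) Q)

/-- the stabiliser of a function -/
def Sf {A Ω X : Type} [Group A] [MulAction A Ω] (f : Ω → X) : Subgroup A where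
  carrier := {a | ∀ ω, f (a • ω) = f ω}
  one_mem' := fun ω => by rw [one_smul]
  mul_mem' := fun {a b} ha hb ω => by rw [mul_smul, ha, hb]
  inv_mem' := fun {a} ha ω => by rw [← ha (a⁻¹ • ω), smul_inv_smul]

/-- JOB CMB. Sum over the stabilisers of functions. Proof. By `S_LNK` the left side is
`∑ f, ∑ ψ : Z2 →* Sf f, W p (range ψ)`, which is the sum of `(-1) ^ |σ|` over the triples
`(f, ψ, σ)`, `ψ : Z2 → A` a homomorphism with range in `Sf f`, `σ` a chain of nontrivial
`p`-subgroups of `A` contained in `Sf f` and normalised by `range ψ` (that is, the range is in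
`chainStabilizer σ`). The condition on `f` is that it is constant on the orbits of
`S = sSup σ ⊔ range ψ`, so there are `|X| ^ norb S` functions `f`. -/
def S_CMB : Prop := ∀ (p : ℕ) [Fact p.Prime] (A Ω X : Type) [Group A] [MulAction A Ω]
  [Finite A] [Finite Ω] [Finite X],
  ∑ᶠ f : Ω → X, (Nat.card (Sf (A := A) f) : ℤ) * krSum p (Sf (A := A) f) =
    ∑ᶠ τ : {τ : Set (Subgroup A) // IsPChain p τ}, (-1 : ℤ) ^ τ.1.ncard *
      ∑ᶠ α : Z2 →* chainStabilizer τ.1,
        (Nat.card X : ℤ) ^ norb Ω (sSup τ.1 ⊔ α.range.map (chainStabilizer τ.1).subtype)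

end Pool.Agent.Q17.WR
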