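import Pool.Agent.Q17.WR.Stm
import Pool.Agent.Q17.TC.Stm

/-!
# Statements of the parts of project WR on characters of wreath products

Library: `Pool.Agent.Q17.TC.Stm` (statements with proofs `t_CL` in `Q239.TC.CL`, `t_TR` in
`Q239.TC.TR`, `t_IRN` in `Q17.TC.IRN`, `t_HOM`, `t_ORT`, `t_LFT`, `t_DEC`, `t_SQ`, `t_REP`, `t_NRM` in
`Q277.TC.*`), `IC.Irr`, `IC.B`, `IC.expand`, `IC.B_irr` in `Helper884.IC.Compl`; `IsIrr`,
`IsIrreducibleCharacter` and `IC.IsIrrChar` are the same by definition.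
-/

set_option autoImplicit false

open scoped Classical

noncomputable section

namespace Pool.Agent.Q17.WR

open Pool.Agent.H254R3.IN (IsIrr)
open Pool.Agent.Y63.AWC (IsIrreducibleCharacter numDefectZero)
open Pool.Agent.Q17.TC (Ov)

/-- the product of the functions `f ω` -/
def prf {Ω G : Type} [Fintype Ω] (f : Ω → G → ℂ) (m : Ω → G) : ℂ := ∏ ω, f ω (m ω)

/-- JOB ZRP. The tensor product representation and the operators permuting the factors. Proof.
Choose for every irreducible character `χ` a matrix representation `M χ : G → ℕ → ℕ → ℂ` (entries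
with indices `< d χ`) with character `χ`. Let `I = {i : Ω → ℕ // ∀ ω, i ω < d (f ω)}` (a finite type),
`W = I → ℂ`, `ρ m` the matrix with entries `∏ ω, M (f ω) (m ω) (i ω) (j ω)` (multiplicative by
`Finset.prod_univ_sum`, as `I` is a product), with trace `∏ ω, f ω (m ω)`, and `u a` the permutation
`(u a w) i = w (i ∘ (a • ·))` (`i ∘ (a • ·)` is in `I` for `a ∈ Sf f`). -/
def S_ZRP : Prop := ∀ (G A Ω : Type) [Group G] [Fintype G] [Group A] [MulAction A Ω] [Finite A]
  [Fintype Ω] (f : Ω → G → ℂ), (∀ ω, IsIrr (f ω)) →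
  ∃ (W : Type) (_ : AddCommGroup W) (_ : Module ℂ W) (_ : FiniteDimensional ℂ W)
    (ρ : Representation ℂ (Ω → G) W) (u : Sf (A := A) f →* (W ≃ₗ[ℂ] W)),
    ρ.character = prf f ∧ ∀ (a : Sf (A := A) f) (m : Ω → G) (w : W),
      u a (ρ m w) = ρ (fun ω => m ((a : A)⁻¹ • ω)) (u a w)

/-- JOB ZPR (uses `S_ZRP` with `A` trivial). The irreducible characters of `Ω → G`. Proof. (a) `prf f`
is a character by `S_ZRP`, and its norm is the product of the norms of the `f ω`, so `1`; `t_IRN`. (c)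
restrict to the factor `ω`: `f ω g * c = f' ω g * c'` with `c, c'` products of degrees, and compare
norms. (b) the squares of the degrees of the `prf f` add up to `∏ ω, ∑ χ, χ(1)² = |G| ^ |Ω|`, so by (a),
(c) there are no other irreducible characters. -/
def S_ZPR : Prop := ∀ (G Ω : Type) [Group G] [Fintype G] [Fintype Ω],
  (∀ f : Ω → G → ℂ, (∀ ω, IsIrr (f ω)) → IsIrr (prf f)) ∧
  (∀ θ : (Ω → G) → ℂ, IsIrr θ → ∃ f : Ω → G → ℂ, (∀ ω, IsIrr (f ω)) ∧ θ = prf f) ∧
  ∀ f f' : Ω → G → ℂ, (∀ ω, IsIrr (f ω)) → (∀ ω, IsIrr (f' ω)) → prf f = prf f' → f = f'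

/-- the inertia group of `prf f`: the elements with right component in `Sf f` -/
def Tf (G : Type) [Group G] {A Ω X : Type} [Group A] [MulAction A Ω] (f : Ω → X) :
    Subgroup (Wr G A Ω) :=
  (Sf (A := A) f).comap (SemidirectProduct.rightHom : Wr G A Ω →* A)

/-- JOB ZEX (uses `S_ZRP`). The characters of the inertia group over `prf f`. Proof. `S_TR` (`t_TR`)
for the group `T = Tf G f`, its normal subgroup `N` (the base group), `i : Sf f →* T`, `a ↦ inr a`,
the representation `ρ` of `S_ZRP` (on `N ≅ (Ω → G)`; irreducible by `S_ZPR` (a) and `irr_of_char` in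
`Q17.TC.IRN`) and the trivial one-dimensional representation `ρ'` of the trivial group `N.comap i`, with
`u` the operators of `S_ZRP` and `u' = 1`: `Mat` holds with all scalars `1`. The trivial group
`N.comap i` gives `Ov (N.comap i) ψ ρ'.character` for all `ψ`. From `Cor` at `1`:
`χ 1 = s 1 * tr (u 1)`, `ψ 1 = s 1 * 1`, so `χ 1 = ψ 1 * prf f 1`. -/
def S_ZEX : Prop := ∀ (G A Ω : Type) [Group G] [Fintype G] [Group A] [MulAction A Ω] [Fintype A]
  [Fintype Ω] [Fintype (Wr G A Ω)] (f : Ω → G → ℂ), (∀ ω, IsIrr (f ω)) →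
  ∃ e : {χ : Tf G (A := A) f → ℂ // IsIrr χ ∧
        Ov ((Bs G A Ω).comap (Tf G (A := A) f).subtype) χ (fun n => prf f (n : Wr G A Ω).left)} ≃
      {ψ : Sf (A := A) f → ℂ // IsIrr ψ},
    ∀ χ, χ.1 1 = prf f 1 * (e χ).1 1

/-- the characters of defect zero -/
abbrev DZt (p : ℕ) (G : Type) [Group G] : Type :=
  {χ : G → ℂ // IsIrreducibleCharacter χ ∧
    ∃ n : ℕ, χ 1 = (n : ℂ) ∧ n.factorization p = (Nat.card G).factorization p}

/-- JOB ZED (uses `S_ZPR`, `S_ZEX`, `t_CL`). Characters of defect zero of the wreath product. Proof.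
Every irreducible `χ` of `Γ = Wr G A Ω` is over some `prf f` (`S_ZPR` (b)), and over `prf f'` if and
only if `f' ω = f (a⁻¹ • ω)` for some `a ∈ A` (`χ` is over conjugate characters of the base group only:
`ov_conj`, `clif`, `clif_conj` in `Q17.TC.ASM4`, or `t_CL`; `S_ZPR` (c)). So `|A| z(Γ)` is the sum over
all `f` of `|Sf f|` times the number of `χ` of defect zero over `prf f`. By `t_CL` (`Tf G f` is the
stabiliser of `prf f`, by `S_ZPR` (c)) and `S_ZEX` these `χ` correspond to the `ψ ∈ Irr (Sf f)` with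
`χ 1 = |A : Sf f| * ∏ f ω 1 * ψ 1` (`|Γ : Tf G f| = |A : Sf f|`); as `|Γ| = |G| ^ |Ω| * |A|` and
`f ω 1` divides `|G|`, `ψ 1` divides `|Sf f|`, the `p`-part of `χ 1` is that of `|Γ|` if and only if all
`f ω` and `ψ` are of defect zero. -/
def S_ZED : Prop := ∀ (p : ℕ) [Fact p.Prime] (G A Ω : Type) [Group G] [Group A] [MulAction A Ω]
  [Finite G] [Finite A] [Finite Ω],
  (Nat.card A : ℤ) * (numDefectZero p (Wr G A Ω) : ℤ) =
    ∑ᶠ f : Ω → DZt p G, (Nat.card (Sf (A := A) f) : ℤ) * (numDefectZero p (Sf (A := A) f) : ℤ)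

end Pool.Agent.Q17.WR
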